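import Pool.Agent.Helper115.FC.Main

set_option autoImplicit false

namespace Pool.Agent.Results.MP_2725b4_gt.SimpleFirstConjugate

open Pool.Agent.Helper115.FC

/-- There are a compact surface without boundary (the torus `ℝ² / (a ℤ × b ℤ)` with a smooth
Riemannian metric `G`) and an `L²` geodesic `η` of its group of volume preserving `H^s`
diffeomorphisms, starting at the identity, along which a conjugate point occurs and whose first
conjugate point, at time `T`, has order exactly `1`; the same surface and geodesic serve for every
Sobolev index `s > 2`. -/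
theorem result : ∃ (a b : ℝ) (_ : 0 < a) (_ : 0 < b) (G : TorusMetric a b) (v : ℝ → VField)
    (η : ℝ → ℝ × ℝ → ℝ × ℝ) (T : ℝ), ∀ s : ℝ, 2 < s →
      IsGeodesic G s v η ∧ IsLeast {t | IsConjugate G s v t} T ∧ conjugateOrder G s v T = 1 :=
  main

end Pool.Agent.Results.MP_2725b4_gt.SimpleFirstConjugate
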